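import Pool.Agent.Q44.WK.Stm

/-!
# Project WK, job FB: the third coordinate is algebraic over the field of the second one
-/

set_option autoImplicit false

namespace Pool.Agent.Q285.WK.FB

open Pool.Agent.Q44.WK

theorem univ3 : ∀ c d c' : Fin 3, c ≠ d → c' ≠ c → c' ≠ d →
    (Finset.univ : Finset (Fin 3)) = {c', c, d} := by decide

theorem prod3 {M : Type} [CommMonoid M] {c d c' : Fin 3} (h1 : c ≠ d) (h2 : c' ≠ c) (h3 : c' ≠ d)
    (F : Fin 3 → M) : ∏ i, F i = F c' * F c * F d := by
  rw [univ3 c d c' h1 h2 h3, Finset.prod_insert, Finset.prod_insert, Finset.prod_singleton,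
    mul_assoc]
  · simp [h1]
  · simp [h2, h3]

theorem sum3 {c d c' : Fin 3} (h1 : c ≠ d) (h2 : c' ≠ c) (h3 : c' ≠ d)
    (F : Fin 3 → ℕ) : ∑ i, F i = F c' + F c + F d := by
  rw [univ3 c d c' h1 h2 h3, Finset.sum_insert, Finset.sum_insert, Finset.sum_singleton,
    add_assoc]
  · simp [h1]
  · simp [h2, h3]

/-- `A` with the values `1` for `X d`, `w` for `X c`, `T` for `X c'` -/
noncomputable def dehom {K : Type} [Field K] (A : MvPolynomial (Fin 3) K) (c c' : Fin 3) :
    Polynomial (Polynomial K) :=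
  ∑ m ∈ A.support, Polynomial.C (Polynomial.C (A.coeff m) * Polynomial.X ^ m c) *
    Polynomial.X ^ m c'

theorem dehom_coeff {K : Type} [Field K] (A : MvPolynomial (Fin 3) K) (c c' : Fin 3) (j e : ℕ) :
    ((dehom A c c').coeff j).coeff e =
      ∑ m ∈ A.support, if m c' = j ∧ m c = e then A.coeff m else 0 := by
  unfold dehom
  rw [Polynomial.finsetSum_coeff, Polynomial.finsetSum_coeff]
  refine Finset.sum_congr rfl fun m _ => ?_
  rw [Polynomial.coeff_C_mul, Polynomial.coeff_X_pow]
  by_cases h1 : m c' = j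
  · rw [if_pos h1.symm, mul_one, Polynomial.coeff_C_mul, Polynomial.coeff_X_pow]
    by_cases h2 : m c = e
    · rw [if_pos h2.symm, if_pos ⟨h1, h2⟩, mul_one]
    · rw [if_neg fun h => h2 h.symm, if_neg fun h => h2 h.2, mul_zero]
  · rw [if_neg fun h => h1 h.symm, if_neg fun h => h1 h.1, mul_zero, Polynomial.coeff_zero]

theorem dehom_ne {K : Type} [Field K] {α : ℕ} {A : MvPolynomial (Fin 3) K}
    (hA : A.IsHomogeneous α) (hA0 : A ≠ 0) {c d c' : Fin 3} (h1 : c ≠ d) (h2 : c' ≠ c)
    (h3 : c' ≠ d) : dehom A c c' ≠ 0 := by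
  obtain ⟨m₀, hm₀⟩ := MvPolynomial.support_nonempty.2 hA0
  have hdeg : ∀ m ∈ A.support, m c' + m c + m d = α := fun m hm => by
    rw [← sum3 h1 h2 h3, ← Finsupp.degree_eq_sum]
    by_contra hne
    exact (MvPolynomial.mem_support_iff.1 hm) (hA.coeff_eq_zero hne)
  intro h
  have h4 := dehom_coeff A c c' (m₀ c') (m₀ c)
  rw [h, Polynomial.coeff_zero, Polynomial.coeff_zero] at h4
  rw [Finset.sum_eq_single m₀ (fun m hm hne => ?_) fun hm => absurd hm₀ hm,
    if_pos ⟨rfl, rfl⟩] at h4
  · exact (MvPolynomial.mem_support_iff.1 hm₀) h4.symm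
  · rw [if_neg]
    rintro ⟨e1, e2⟩
    apply hne
    have e3 : m d = m₀ d := by
      have := hdeg m hm
      have := hdeg m₀ hm₀
      omega
    ext i
    have hi : i ∈ ({c', c, d} : Finset (Fin 3)) := by
      rw [← univ3 c d c' h1 h2 h3]
      exact Finset.mem_univ i
    simp only [Finset.mem_insert, Finset.mem_singleton] at hi
    rcases hi with rfl | rfl | rfl
    · exact e1
    · exact e2
    · exact e3

theorem dehom_natDegree {K : Type} [Field K] {α : ℕ} {A : MvPolynomial (Fin 3) K}
    (hA : A.IsHomogeneous α) {c d c' : Fin 3} (h1 : c ≠ d) (h2 : c' ≠ c)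
    (h3 : c' ≠ d) : (dehom A c c').natDegree ≤ α := by
  unfold dehom
  refine Polynomial.natDegree_sum_le_of_forall_le _ _ fun m hm => ?_
  have hdeg : m c' + m c + m d = α := by
    rw [← sum3 h1 h2 h3, ← Finsupp.degree_eq_sum]
    by_contra hne
    exact (MvPolynomial.mem_support_iff.1 hm) (hA.coeff_eq_zero hne)
  exact (Polynomial.natDegree_C_mul_X_pow_le _ _).trans (by omega)

/-- **S_f3** -/
theorem main : S_f3 := by
  intro K Ω _ _ _ _ α A hA hA0 v hv c d c' hd h1 h2 h3 hw
  set w := v c / v d with hwdef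
  set w' : IntermediateField.adjoin K {w} :=
    ⟨w, IntermediateField.mem_adjoin_simple_self K w⟩ with hw'
  set φ : Polynomial K →+* IntermediateField.adjoin K {w} :=
    (Polynomial.aeval w').toRingHom with hφ
  have hφa : ∀ p : Polynomial K, algebraMap (IntermediateField.adjoin K {w}) Ω (φ p) =
      Polynomial.aeval w p := fun p => (Polynomial.aeval_algebraMap_apply Ω w' p).symm
  have hinj : Function.Injective φ := by
    rw [injective_iff_map_eq_zero]
    intro p hp
    by_contra hne
    apply hw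
    refine ⟨p, hne, ?_⟩
    rw [← hφa, hp, map_zero]
  refine ⟨(dehom A c c').map φ, ?_, ?_, ?_⟩
  · exact (Polynomial.map_ne_zero_iff hinj).2 (dehom_ne hA hA0 h1 h2 h3)
  · exact Polynomial.natDegree_map_le.trans (dehom_natDegree hA h1 h2 h3)
  · rw [Polynomial.aeval_def, Polynomial.eval₂_map]
    have e1 : Polynomial.eval₂ ((algebraMap (IntermediateField.adjoin K {w}) Ω).comp φ)
        (v c' / v d) (dehom A c c') =
        ∑ m ∈ A.support, algebraMap K Ω (A.coeff m) * w ^ m c * (v c' / v d) ^ m c' := by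
      unfold dehom
      rw [Polynomial.eval₂_finsetSum]
      refine Finset.sum_congr rfl fun m _ => ?_
      rw [Polynomial.eval₂_mul, Polynomial.eval₂_C, Polynomial.eval₂_X_pow, RingHom.comp_apply,
        hφa, map_mul, map_pow, Polynomial.aeval_C, Polynomial.aeval_X]
    have e2 : MvPolynomial.aeval v A = ∑ m ∈ A.support,
        algebraMap K Ω (A.coeff m) * (v c' ^ m c' * v c ^ m c * v d ^ m d) := by
      rw [MvPolynomial.aeval_def, MvPolynomial.eval₂_eq']
      refine Finset.sum_congr rfl fun m _ => ?_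
      rw [prod3 h1 h2 h3]
    have e3 : v d ^ α * (∑ m ∈ A.support,
        algebraMap K Ω (A.coeff m) * w ^ m c * (v c' / v d) ^ m c') = MvPolynomial.aeval v A := by
      rw [e2, Finset.mul_sum]
      refine Finset.sum_congr rfl fun m hm => ?_
      have hdeg : m c' + m c + m d = α := by
        rw [← sum3 h1 h2 h3, ← Finsupp.degree_eq_sum]
        by_contra hne
        exact (MvPolynomial.mem_support_iff.1 hm) (hA.coeff_eq_zero hne)
      rw [← hdeg, pow_add, pow_add, hwdef, div_pow, div_pow]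
      field_simp
    rw [e1]
    rw [hv] at e3
    exact (mul_eq_zero.1 e3).resolve_left (pow_ne_zero _ hd)

end Pool.Agent.Q285.WK.FB
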